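import Pool.Agent.H298.Colmez.Swap

/-!
# Cores with doubly transitive blocks
-/

set_option autoImplicit false
set_option linter.unusedSectionVars false
set_option linter.unusedVariables false

open scoped Classical

namespace Pool.Agent.H298.Colmez

open Pool.Agent.Q11.CZ Pool.Agent.N770.CP Pool.Agent.H298.Core

variable {G : Type} [Group G] [Fintype G] {X : Type} [MulAction G X] {c : G}

section

variable (hc : ∀ g, c * g = g * c) (hc2 : c * c = 1)

include hc hc2 in
/-- If the differences are invariant then so are Colmez's functions. -/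
theorem zinv_a0_of (hc1 : c ≠ 1) {x : X} (h : ∀ (y : X) (g : G) (j : ℕ),
    j.Coprime (6 * Nat.card G) → dif c x y (g ^ j) = dif c x y g) {Φ : Finset X}
    (hΦ : IsHalf c Φ) : ZInv (a0 x Φ : G → ℚ) := by
  intro g g' hgg
  obtain ⟨j, hj, rfl⟩ := exists_exponent hgg
  have key : (∑ y ∈ Φ, dif c x y (g ^ j) : ℤ) = ∑ y ∈ Φ, dif c x y g :=
    Finset.sum_congr rfl fun y _ => h y g j hj
  have h1 := a0_add hc x hΦ g
  have h2 := a0_add hc x hΦ (g ^ j)
  have h3 := a0_sub hc hc2 x Φ g
  have h4 := a0_sub hc hc2 x Φ (g ^ j)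
  rw [key] at h4
  linarith

theorem pow_fix_iff {j : ℕ} (hj : j.Coprime (Nat.card G)) (v : G) (u : X) :
    v ^ j • u = u ↔ v • u = u := by
  constructor
  · intro h
    have h2 : v ∈ Subgroup.zpowers (v ^ j) := by
      rw [zpowers_pow hj]
      exact Subgroup.mem_zpowers _
    have h3 : Subgroup.zpowers (v ^ j) ≤ MulAction.stabilizer G u := by
      rw [Subgroup.zpowers_le]
      exact h
    exact h3 h2
  · intro h
    have h3 : v ^ j ∈ MulAction.stabilizer G u := Subgroup.pow_mem _ h j
    exact h3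

include hc hc2 in
theorem dif_self_pow (hc1 : c ≠ 1) {j : ℕ} (hj : j.Coprime (Nat.card G)) (u : X) (g : G) :
    dif c u u (g ^ j) = dif c u u g := by
  unfold dif
  rw [cnt_eq_sum, cnt_eq_sum, cnt_eq_sum, cnt_eq_sum]
  congr 1
  · refine Finset.sum_congr rfl fun h _ => ?_
    rw [conj_pow']
    exact ind_congr (pow_fix_iff hj _ _)
  · refine Finset.sum_congr rfl fun h _ => ?_
    rw [conj_pow']
    refine ind_congr ?_
    have e : ∀ v : G, v • u = c • u ↔ (c * v) • u = u := by
      intro v
      rw [mul_smul]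
      constructor
      · intro h
        rw [h, ← mul_smul, hc2, one_smul]
      · intro h
        conv_rhs => rw [← h]
        rw [← mul_smul c c, hc2, one_smul]
    rw [e, e, ← c_pow hc hc2 hc1 hj, pow_fix_iff hj]

variable {Y : Type} [MulAction G Y] {ρ : X → Y} (hρ : ∀ (g : G) (x : X), ρ (g • x) = g • ρ x)

theorem sum_ind (B : Finset X) (w : X) : (∑ y ∈ B, ind (w = y)) = ind (w ∈ B) := by
  unfold ind
  rw [Finset.sum_ite_eq]
  congr

include hc hc2 hρ in
theorem sum_block [Fintype X] (x : X) (g : G) :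
    (∑ y ∈ Finset.univ.filter (fun y => ρ y = ρ x), dif c x y g) = dif c (ρ x) (ρ x) g := by
  unfold dif
  rw [Finset.sum_sub_distrib, cnt_eq_sum, cnt_eq_sum]
  congr 1
  · rw [Finset.sum_congr rfl fun y _ => cnt_eq_sum x y g, Finset.sum_comm]
    refine Finset.sum_congr rfl fun h _ => ?_
    rw [sum_ind]
    refine ind_congr ?_
    rw [Finset.mem_filter, hρ]
    exact ⟨fun h => h.2, fun h => ⟨Finset.mem_univ _, h⟩⟩
  · rw [Finset.sum_congr rfl fun y _ => cnt_eq_sum x (c • y) g, Finset.sum_comm]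
    refine Finset.sum_congr rfl fun h _ => ?_
    have e : ∀ y : X, ind ((h⁻¹ * g * h) • x = c • y) = ind (c • ((h⁻¹ * g * h) • x) = y) := by
      intro y
      refine ind_congr ?_
      constructor
      · intro h
        rw [h, ← mul_smul, hc2, one_smul]
      · intro h
        rw [← h, ← mul_smul, hc2, one_smul]
    rw [Finset.sum_congr rfl fun y _ => e y, sum_ind]
    refine ind_congr ?_
    rw [Finset.mem_filter, hρ, hρ]
    constructor
    · rintro ⟨-, h⟩
      conv_rhs => rw [← h]
      rw [← mul_smul c c, hc2, one_smul]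
    · intro h
      refine ⟨Finset.mem_univ _, ?_⟩
      rw [h, ← mul_smul, hc2, one_smul]

include hc hc2 hρ in
/-- **Colmez's functions**, doubly transitive blocks. -/
theorem zinv_a0_block [Fintype X] (hc1 : c ≠ 1)
    (hsep : ∀ x y, ρ y ≠ ρ x → ρ y ≠ c • ρ x → ∃ k : G, k • x = x ∧ k • y = c • y)
    (htrans : ∀ x y y' : X, ρ y = ρ x → ρ y' = ρ x → y ≠ x → y' ≠ x →
      ∃ s : G, s • x = x ∧ s • y = y') (x : X) {Φ : Finset X} (hΦ : IsHalf c Φ) :
    ZInv (a0 x Φ : G → ℚ) := by
  refine zinv_a0_of hc hc2 hc1 (fun y g j hj => ?_) hΦ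
  have hjG : j.Coprime (Nat.card G) := Nat.Coprime.coprime_dvd_right (Dvd.intro_left _ rfl) hj
  have key : ∀ y : X, ρ y = ρ x → dif c x y (g ^ j) = dif c x y g := by
    intro y hy
    by_cases hyx : y = x
    · rw [hyx]
      exact dif_self_pow hc hc2 hc1 hjG x g
    · have hB : ∀ g : G, dif c (ρ x) (ρ x) g = dif c x x g +
          ((Finset.univ.filter (fun y => ρ y = ρ x)).erase x).card * dif c x y g := by
        intro g
        have hxB : x ∈ Finset.univ.filter (fun y => ρ y = ρ x) :=
          Finset.mem_filter.2 ⟨Finset.mem_univ x, rfl⟩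
        rw [← sum_block hc hc2 hρ x g, ← Finset.add_sum_erase _ _ hxB]
        congr 1
        rw [← nsmul_eq_mul, ← Finset.sum_const]
        refine Finset.sum_congr rfl fun z hz => ?_
        obtain ⟨hz1, hz2⟩ := Finset.mem_erase.1 hz
        obtain ⟨s, h1, h2⟩ := htrans x z y (Finset.mem_filter.1 hz2).2 hy hz1 hyx
        have h3 := dif_smul hc s x z g
        rw [h1, h2] at h3
        exact h3.symm
      have h1 := hB g
      have h2 := hB (g ^ j)
      rw [dif_self_pow hc hc2 hc1 hjG, dif_self_pow hc hc2 hc1 hjG, h1] at h2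
      have h3 : ((Finset.univ.filter (fun y => ρ y = ρ x)).erase x).card ≠ 0 := by
        rw [Finset.card_ne_zero]
        exact ⟨y, Finset.mem_erase.2 ⟨hyx, Finset.mem_filter.2 ⟨Finset.mem_univ y, hy⟩⟩⟩
      have h4 : (((Finset.univ.filter (fun y => ρ y = ρ x)).erase x).card : ℤ) ≠ 0 := by
        exact_mod_cast h3
      have h5 := add_left_cancel h2
      exact (mul_left_cancel₀ h4 h5).symm
  by_cases h1 : ρ y = ρ x
  · exact key y h1
  · by_cases h2 : ρ y = c • ρ x
    · have h4 : ρ (c • y) = ρ x := by rw [hρ, h2, ← mul_smul, hc2, one_smul]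
      have h5 := key _ h4
      rw [dif_c hc2, dif_c hc2, neg_inj] at h5
      exact h5
    · obtain ⟨k, h3, h4⟩ := hsep x y h1 h2
      rw [dif_unlinked h3 h4, dif_unlinked h3 h4]

/-- **Colmez's functions**, cores with at most three pairs, no automorphisms of the orders three and
four. -/
theorem zinv_a0_small [Finite X] [MulAction.IsPretransitive G X] (hc : ∀ g, c * g = g * c)
    (hc2 : c * c = 1) (hne : ∀ x : X, c • x ≠ x) {n : ℕ} {x₀ : X}
    (hcard : (core G (fun z => c • z) n x₀).ncard ≤ 6)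
    (haut : ∀ (x : X) (h : G), (∀ s : G, s • x = x → s • (h • x) = h • x) →
      h • (h • x) ≠ c • x ∧
      ((h • (h • (h • x)) = x ∨ h • (h • (h • x)) = c • x) → h • x = x ∨ h • x = c • x))
    (x : X) {Φ : Finset X} (hΦ : IsHalf c Φ) : ZInv (a0 x Φ : G → ℚ) := by
  obtain ⟨N, hlast, hN⟩ := exists_small_last hc hc2 hne hcard
  refine zinv_a0_core hc hc2 (K := fun x => core G (fun z => c • z) N x) (fun x => self_mem N x)
    (fun x y h => eq_of_mem h) (fun x z h => inv_mem (cc_smul hc2) (c_smul_comm hc) h)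
    (fun x h z hz hhz w => smul_mem_core (cc_smul hc2) (c_smul_comm hc) hz hhz w)
    (fun x y h => sep_of_not_mem hc hc2 N x y h)
    (fun x h hx => exp_small hc hc2 hne hlast hN x h hx) ?_ x hΦ
  intro x y hy
  obtain ⟨h, rfl⟩ := MulAction.exists_smul_eq G x y
  exact swap_small hc hc2 hne (Set.toFinite _) (hN x)
    (fun z h => inv_mem (cc_smul hc2) (c_smul_comm hc) h)
    (fun h z hz hhz w => smul_mem_core (cc_smul hc2) (c_smul_comm hc) hz hhz w)
    (fun r hr => rigid_of_last hc2 (hlast x) hr) (self_mem N x) hy (haut x h)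

end

end Pool.Agent.H298.Colmez
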