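import Pool.Agent.H298.Colmez.Grp

/-!
# Small cores
-/

set_option autoImplicit false
set_option linter.unusedSectionVars false
set_option linter.unusedVariables false

open scoped Classical

namespace Pool.Agent.H298.Colmez

open Pool.Agent.Q11.CZ Pool.Agent.N770.CP Pool.Agent.H298.Core

variable {G : Type} [Group G] {X : Type} [MulAction G X] {c : G}

section

variable (hc : ∀ g, c * g = g * c) (hc2 : c * c = 1) (hne : ∀ x : X, c • x ≠ x)

include hc2 in
theorem cc_smul (x : X) : c • (c • x) = x := by rw [← mul_smul, hc2, one_smul]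

include hc in
theorem c_smul_comm (g : G) (x : X) : g • (c • x) = c • (g • x) := by
  rw [← mul_smul, ← hc, mul_smul]

include hc hc2 in
/-- Elements outside of a core are separated. -/
theorem sep_of_not_mem (n : ℕ) (x y : X) (h : y ∉ core G (fun z => c • z) n x) :
    ∃ k : G, k • x = x ∧ k • y = c • y := by
  induction n with
  | zero => exact absurd trivial h
  | succ n ih =>
    by_cases hy : y ∈ core G (fun z => c • z) n x
    · obtain ⟨g, hg, hgxy⟩ : ∃ g ∈ Signs G (fun z => c • z) (core G (fun z => c • z) n x),
          ¬ (g • x = x ↔ g • y = y) := by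
        by_contra hcon
        refine h ⟨hy, fun g hg => ?_⟩
        by_contra h2
        exact hcon ⟨g, hg, h2⟩
      by_cases h1 : g • x = x
      · refine ⟨g, h1, ?_⟩
        rcases hg y hy with h2 | h2
        · exact absurd ⟨fun _ => h2, fun _ => h1⟩ hgxy
        · exact h2
      · have h3 : g • y = y := by
          by_contra h3
          exact hgxy ⟨fun h => absurd h h1, fun h => absurd h h3⟩
        have h4 : g • x = c • x := (hg x (self_mem n x)).resolve_left h1
        refine ⟨c * g, ?_, ?_⟩
        · rw [mul_smul, h4]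
          exact cc_smul hc2 x
        · rw [mul_smul, h3]
    · exact ih hy

/-- There is a last core. -/
theorem exists_last [Finite X] [MulAction.IsPretransitive G X] (hc : ∀ g, c * g = g * c)
    (hc2 : c * c = 1) (n : ℕ) :
    ∃ N, n ≤ N ∧ ∀ y : X, core G (fun z => c • z) (N + 1) y = core G (fun z => c • z) N y := by
  by_cases hX : Nonempty X
  · obtain ⟨x⟩ := hX
    let f : ℕ → ℕ := fun k => (core G (fun z => c • z) k x).ncard
    have hanti : ∀ k, f (k + 1) ≤ f k := fun k =>
      Set.ncard_le_ncard (core_succ_subset k x) (Set.toFinite _)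
    obtain ⟨N, hN, hfN⟩ : ∃ N, n ≤ N ∧ f N ≤ f (N + 1) := by
      by_contra hcon
      push Not at hcon
      have h1 : ∀ k, f (n + k) + k ≤ f n := by
        intro k
        induction k with
        | zero => exact le_refl _
        | succ k ih =>
          have h2 := hcon (n + k) (by omega)
          have h3 : n + (k + 1) = n + k + 1 := by ring
          rw [h3]
          omega
      have h2 := h1 (f n + 1)
      omega
    have hx : core G (fun z => c • z) (N + 1) x = core G (fun z => c • z) N x :=
      Set.eq_of_subset_of_ncard_le (core_succ_subset N x) hfN (Set.toFinite _)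
    refine ⟨N, hN, fun y => ?_⟩
    obtain ⟨g, rfl⟩ := MulAction.exists_smul_eq G x y
    ext w
    rw [smul_core (cc_smul hc2) (c_smul_comm hc), smul_core (cc_smul hc2) (c_smul_comm hc), hx]
  · exact ⟨n, le_refl _, fun y => absurd ⟨y⟩ hX⟩

theorem core_antitone {inv : X → X} {n N : ℕ} (h : n ≤ N) (x : X) :
    core G inv N x ⊆ core G inv n x := by
  induction N, h using Nat.le_induction with
  | base => exact subset_rfl
  | succ N _ ih => exact (core_succ_subset N x).trans ih

include hc2 in
/-- In the last core the elements which act by signs act by one sign. -/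
theorem rigid_of_last {N : ℕ} {x : X}
    (hN : core G (fun z => c • z) (N + 1) x = core G (fun z => c • z) N x) {r : G}
    (hr : ∀ w ∈ core G (fun z => c • z) N x, r • w = w ∨ r • w = c • w) :
    (∀ w ∈ core G (fun z => c • z) N x, r • w = w) ∨
      ∀ w ∈ core G (fun z => c • z) N x, r • w = c • w := by
  have h1 : ∀ w ∈ core G (fun z => c • z) N x, (r • x = x ↔ r • w = w) := by
    intro w hw
    rw [← hN] at hw
    exact hw.2 r hr
  by_cases h2 : r • x = x
  · exact Or.inl fun w hw => (h1 w hw).1 h2
  · right
    intro w hw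
    rcases hr w hw with h3 | h3
    · exact absurd ((h1 w hw).2 h3) h2
    · exact h3

include hc hc2 hne in
/-- The orders of the elements which act on a set of at most six elements. -/
theorem exp_of_card {K : Set X} (hfin : K.Finite) (hcard : K.ncard ≤ 6)
    (hKc : ∀ z ∈ K, c • z ∈ K) {h : G} (hh : ∀ w ∈ K, h • w ∈ K)
    (hrig : ∀ r : G, (∀ w ∈ K, r • w = w ∨ r • w = c • w) →
      (∀ w ∈ K, r • w = w) ∨ ∀ w ∈ K, r • w = c • w) :
    (∀ z ∈ K, h ^ 4 • z = z) ∨ ∀ z ∈ K, h ^ 6 • z = z := by
  have hcc := cc_smul (X := X) hc2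
  have hcm := c_smul_comm (X := X) hc
  have hsq : ∀ r : G, ((∀ w ∈ K, r • w = w) ∨ ∀ w ∈ K, r • w = c • w) →
      ∀ w ∈ K, (r * r) • w = w := by
    rintro r (h1 | h1) w hw
    · rw [mul_smul, h1 w hw, h1 w hw]
    · rw [mul_smul, h1 w hw, hcm, h1 w hw, hcc]
  by_cases hA : ∀ w ∈ K, (h * h) • w = w ∨ (h * h) • w = c • w
  · left
    intro w hw
    have h1 := hsq _ (hrig _ hA) w hw
    have h2 : h ^ 4 = h * h * (h * h) := by simp only [pow_succ, pow_zero, one_mul, mul_assoc]
    rwa [h2]
  · push Not at hA
    obtain ⟨w, hw, h1, h2⟩ := hA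
    rw [mul_smul] at h1 h2
    have e1 : h • w ≠ w := fun e => h1 (by rw [e, e])
    have e2 : h • w ≠ c • w := fun e => h1 (by rw [e, hcm, e, hcc])
    have hinj : ∀ a b : X, h • a = h • b → a = b := fun a b e => MulAction.injective h e
    have hcinj : ∀ a b : X, c • a = c • b → a = b := fun a b e => MulAction.injective c e
    have hK : ∀ z ∈ K, z = w ∨ z = c • w ∨ z = h • w ∨ z = c • (h • w) ∨ z = h • (h • w) ∨
        z = c • (h • (h • w)) := by
      let S : Finset X := {w, c • w, h • w, c • (h • w), h • (h • w), c • (h • (h • w))}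
      have hS : S.card = 6 := by
        have n1 : w ≠ c • w := fun e => hne w e.symm
        have n2 : w ≠ h • w := fun e => e1 e.symm
        have n3 : w ≠ c • (h • w) := fun e => e2 (by conv_rhs => rw [e, hcc])
        have n4 : w ≠ h • (h • w) := fun e => h1 e.symm
        have n5 : w ≠ c • (h • (h • w)) := fun e => h2 (by conv_rhs => rw [e, hcc])
        have n6 : c • w ≠ h • w := fun e => e2 e.symm
        have n7 : c • w ≠ c • (h • w) := fun e => n2 (hcinj _ _ e)
        have n8 : c • w ≠ h • (h • w) := fun e => h2 e.symm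
        have n9 : c • w ≠ c • (h • (h • w)) := fun e => n4 (hcinj _ _ e)
        have n10 : h • w ≠ c • (h • w) := fun e => hne _ e.symm
        have n11 : h • w ≠ h • (h • w) := fun e => n2 (hinj _ _ e)
        have n12 : h • w ≠ c • (h • (h • w)) := fun e => n3 (hinj _ _ (by rw [hcm h (h • w)]; exact e))
        have n13 : c • (h • w) ≠ h • (h • w) := fun e => n12 (by rw [← e, hcc])
        have n14 : c • (h • w) ≠ c • (h • (h • w)) := fun e => n11 (hcinj _ _ e)
        have n15 : h • (h • w) ≠ c • (h • (h • w)) := fun e => hne _ e.symm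
        change Finset.card {w, c • w, h • w, c • (h • w), h • (h • w), c • (h • (h • w))} = 6
        rw [Finset.card_insert_of_notMem (by simp [n1, n2, n3, n4, n5]),
          Finset.card_insert_of_notMem (by simp [n6, n7, n8, n9]),
          Finset.card_insert_of_notMem (by simp [n10, n11, n12]),
          Finset.card_insert_of_notMem (by simp [n13, n14]),
          Finset.card_insert_of_notMem (by simp [n15]), Finset.card_singleton]
      have hsub : (S : Set X) ⊆ K := by
        intro z hz
        have hz' : z ∈ S := hz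
        simp only [S, Finset.mem_insert, Finset.mem_singleton] at hz'
        rcases hz' with rfl | rfl | rfl | rfl | rfl | rfl
        · exact hw
        · exact hKc _ hw
        · exact hh _ hw
        · exact hKc _ (hh _ hw)
        · exact hh _ (hh _ hw)
        · exact hKc _ (hh _ (hh _ hw))
      have heq : (S : Set X) = K := by
        refine Set.eq_of_subset_of_ncard_le hsub ?_ hfin
        rw [Set.ncard_coe_finset, hS]
        exact hcard
      intro z hz
      rw [← heq] at hz
      have hz' : z ∈ S := hz
      simpa only [S, Finset.mem_insert, Finset.mem_singleton] using hz'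
    have h3 : h • (h • (h • w)) = w ∨ h • (h • (h • w)) = c • w := by
      rcases hK _ (hh _ (hh _ (hh _ hw))) with e | e | e | e | e | e
      · exact Or.inl e
      · exact Or.inr e
      · exact absurd (hinj _ _ e) h1
      · rw [← hcm] at e
        exact absurd (hinj _ _ e) h2
      · exact absurd (hinj _ _ (hinj _ _ e)) e1
      · rw [← hcm, ← hcm] at e
        exact absurd (hinj _ _ (hinj _ _ e)) e2
    have h4 : ∀ z ∈ K, (h * h * h) • z = z ∨ (h * h * h) • z = c • z := by
      intro z hz
      rw [mul_smul, mul_smul]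
      rcases hK z hz with rfl | rfl | rfl | rfl | rfl | rfl <;> rcases h3 with h3 | h3 <;>
        simp only [hcm, h3, hcc, true_or, or_true]
    right
    intro z hz
    have h5 := hsq _ (hrig _ h4) z hz
    have h6 : h ^ 6 = h * h * h * (h * h * h) := by
      simp only [pow_succ, pow_zero, one_mul, mul_assoc]
    rwa [h6]

end

section

variable [Fintype G] [Finite X] [MulAction.IsPretransitive G X] (hc : ∀ g, c * g = g * c)
  (hc2 : c * c = 1) (hne : ∀ x : X, c • x ≠ x)
include hc hc2 hne

/-- **The functions of the Faltings heights**, cores whose group has elements of the orders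
`1, 2, 3, 4, 6`. -/
theorem zinv_T_exp (n : ℕ) (hexp : ∀ (x : X) (h : G), h • x ∈ core G (fun z => c • z) n x →
      (∀ z ∈ core G (fun z => c • z) n x, h ^ 4 • z = z) ∨
        ∀ z ∈ core G (fun z => c • z) n x, h ^ 6 • z = z)
    {Φ : Finset X} (hΦ : IsHalf c Φ) : ZInv (T Φ : G → ℚ) :=
  zinv_T_core hc hc2 (K := fun x => core G (fun z => c • z) n x) (fun x => self_mem n x)
    (fun x y h => eq_of_mem h) (fun x z h => inv_mem (cc_smul hc2) (c_smul_comm hc) h)
    (fun x h z hz hhz w => smul_mem_core (cc_smul hc2) (c_smul_comm hc) hz hhz w)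
    (fun x y h => sep_of_not_mem hc hc2 n x y h) (fun x h hx => hexp x h hx) hΦ

/-- The last core if some core has at most three pairs. -/
theorem exists_small_last {n : ℕ} {x : X} (hcard : (core G (fun z => c • z) n x).ncard ≤ 6) :
    ∃ N, (∀ y : X, core G (fun z => c • z) (N + 1) y = core G (fun z => c • z) N y) ∧
      ∀ y : X, (core G (fun z => c • z) N y).ncard ≤ 6 := by
  obtain ⟨N, hN, hlast⟩ := exists_last (X := X) hc hc2 n
  refine ⟨N, hlast, fun y => ?_⟩
  obtain ⟨g, rfl⟩ := MulAction.exists_smul_eq G x y
  rw [core_ncard_smul (cc_smul hc2) (c_smul_comm hc)]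
  exact (Set.ncard_le_ncard (core_antitone hN x) (Set.toFinite _)).trans hcard

theorem exp_small {N : ℕ} (hlast : ∀ y : X, core G (fun z => c • z) (N + 1) y =
      core G (fun z => c • z) N y) (hcard : ∀ y : X, (core G (fun z => c • z) N y).ncard ≤ 6)
    (x : X) (h : G) (hx : h • x ∈ core G (fun z => c • z) N x) :
    (∀ z ∈ core G (fun z => c • z) N x, h ^ 4 • z = z) ∨
        ∀ z ∈ core G (fun z => c • z) N x, h ^ 6 • z = z :=
  exp_of_card hc hc2 hne (Set.toFinite _) (hcard x)
    (fun z h => inv_mem (cc_smul hc2) (c_smul_comm hc) h)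
    (fun w hw => (smul_mem_core (cc_smul hc2) (c_smul_comm hc) (self_mem N x) hx w).2 hw)
    (fun r hr => rigid_of_last hc2 (hlast x) hr)

/-- **The functions of the Faltings heights**, cores with at most three pairs. -/
theorem zinv_T_small {n : ℕ} {x : X} (hcard : (core G (fun z => c • z) n x).ncard ≤ 6)
    {Φ : Finset X} (hΦ : IsHalf c Φ) : ZInv (T Φ : G → ℚ) := by
  obtain ⟨N, hlast, hN⟩ := exists_small_last hc hc2 hne hcard
  exact zinv_T_exp hc hc2 hne N (fun x h hx => exp_small hc hc2 hne hlast hN x h hx) hΦ

end

end Pool.Agent.H298.Colmez
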