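import Pool.Agent.H298.Colmez.Block
import Pool.Agent.H298.Core.Main
import Pool.Graph.R_pool_sql_team_seeded_63374d34.N770.CP.Fields2

/-!
# Colmez's class functions of CM fields with a small core
-/

set_option autoImplicit false
set_option linter.unusedSectionVars false
set_option linter.unusedVariables false

open scoped Classical
open NumberField Module

namespace Pool.Agent.H298.Colmez

open Pool.Agent.Results.MP_a2beea_nt.AveragedAndAbelian
open Pool.Agent.H298.Core Pool.Agent.H977R3.CM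

attribute [local instance] actC

/-- Transfer of cores. -/
theorem core_transfer {G G' X X' : Type*} [Group G] [Group G'] [MulAction G X] [MulAction G' X']
    {inv : X → X} {inv' : X' → X'} {f : X → X'} (hf : Function.Bijective f)
    (hinv : ∀ x, f (inv x) = inv' (f x)) (h1 : ∀ g : G, ∃ g' : G', ∀ x, f (g • x) = g' • f x)
    (h2 : ∀ g' : G', ∃ g : G, ∀ x, f (g • x) = g' • f x) (n : ℕ) (x y : X) :
    f y ∈ core G' inv' n (f x) ↔ y ∈ core G inv n x := by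
  induction n generalizing y with
  | zero => exact Iff.rfl
  | succ n ih =>
    rw [mem_core_succ, mem_core_succ]
    refine and_congr (ih y) ?_
    have key : ∀ (g : G) (g' : G'), (∀ x, f (g • x) = g' • f x) →
        (g ∈ Signs G inv (core G inv n x) ↔ g' ∈ Signs G' inv' (core G' inv' n (f x))) := by
      intro g g' hg
      constructor
      · intro h z' hz'
        obtain ⟨z, rfl⟩ := hf.2 z'
        rcases h z ((ih z).1 hz') with e | e
        · exact Or.inl (by rw [← hg, e])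
        · exact Or.inr (by rw [← hg, e, hinv])
      · intro h z hz
        rcases h (f z) ((ih z).2 hz) with e | e
        · exact Or.inl (hf.1 (by rw [hg, e]))
        · exact Or.inr (hf.1 (by rw [hg, e, hinv]))
    have key2 : ∀ (g : G) (g' : G'), (∀ x, f (g • x) = g' • f x) → ∀ z,
        (g • z = z ↔ g' • f z = f z) := by
      intro g g' hg z
      rw [← hg]
      exact hf.1.eq_iff.symm
    constructor
    · intro h g hg
      obtain ⟨g', hg'⟩ := h1 g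
      rw [key2 g g' hg' x, key2 g g' hg' y]
      exact h g' ((key g g' hg').1 hg)
    · intro h g' hg'
      obtain ⟨g, hg⟩ := h2 g'
      rw [← key2 g g' hg x, ← key2 g g' hg y]
      exact h g ((key g g' hg).2 hg')

variable {E K : Type} [Field E] [NumberField E] [Field K] [NumberField K] [IsGalois ℚ K]
  [IsCMField E] [IsCMField K]

/-- The embedding into the complex numbers. -/
def toC (j : K →+* ℂ) (ψ : E →ₐ[ℚ] K) : E →+* ℂ := j.comp (ψ : E →+* K)

theorem exists_gal_act (j : K →+* ℂ) (σ : ℂ ≃+* ℂ) :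
    ∃ g : K ≃ₐ[ℚ] K, ∀ ψ : E →ₐ[ℚ] K, toC j (g • ψ) = σ • toC j ψ := by
  obtain ⟨g, hg⟩ := exists_gal j σ
  refine ⟨g, fun ψ => ?_⟩
  ext x
  exact (hg (ψ x)).symm

theorem exists_aut_act (j : K →+* ℂ) (g : K ≃ₐ[ℚ] K) :
    ∃ σ : ℂ ≃+* ℂ, ∀ ψ : E →ₐ[ℚ] K, toC j (g • ψ) = σ • toC j ψ := by
  obtain ⟨σ, hσ⟩ := exists_aut j (g : K ≃+* K)
  refine ⟨σ, fun ψ => ?_⟩
  ext x
  exact (hσ (ψ x)).symm

theorem toC_conj (j : K →+* ℂ) (ψ : E →ₐ[ℚ] K) :
    toC j (conjugation K • ψ) = ComplexEmbedding.conjugate (toC j ψ) := by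
  ext x
  exact Pool.Agent.Q11.CZ.emb_conj j (ψ x)

theorem toC_bijective (j : K →+* ℂ) (ψ₀ : E →ₐ[ℚ] K) :
    Function.Bijective (toC j : (E →ₐ[ℚ] K) → (E →+* ℂ)) := by
  constructor
  · intro ψ θ h
    ext x
    exact j.injective (RingHom.congr_fun h x)
  · intro φ
    obtain ⟨σ, hσ⟩ := MulAction.exists_smul_eq (ℂ ≃+* ℂ) (toC j ψ₀) φ
    obtain ⟨g, hg⟩ := exists_gal_act (E := E) j σ
    exact ⟨g • ψ₀, by rw [hg, hσ]⟩

/-- The cores of the embeddings into `K` and into the complex numbers. -/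
theorem mem_core_toC (j : K →+* ℂ) (n : ℕ) (ψ θ : E →ₐ[ℚ] K) :
    toC j θ ∈ coreOf n (toC j ψ) ↔
      θ ∈ core (K ≃ₐ[ℚ] K) (fun z : E →ₐ[ℚ] K => conjugation K • z) n ψ := by
  rw [coreOf_eq]
  exact core_transfer (toC_bijective j ψ) (fun x => toC_conj j x) (fun g => exists_aut_act j g)
    (fun σ => exists_gal_act j σ) n ψ θ

theorem ncard_core_toC (j : K →+* ℂ) (n : ℕ) (ψ : E →ₐ[ℚ] K) :
    (core (K ≃ₐ[ℚ] K) (fun z : E →ₐ[ℚ] K => conjugation K • z) n ψ).ncard =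
      (coreOf n (toC j ψ)).ncard := by
  have h : coreOf n (toC j ψ) = toC j ''
      core (K ≃ₐ[ℚ] K) (fun z : E →ₐ[ℚ] K => conjugation K • z) n ψ := by
    ext φ
    obtain ⟨θ, rfl⟩ := (toC_bijective j ψ).2 φ
    rw [mem_core_toC]
    constructor
    · intro h
      exact ⟨θ, h, rfl⟩
    · rintro ⟨θ', h, h'⟩
      rwa [← (toC_bijective j ψ).1 h']
  rw [h, Set.ncard_image_of_injective _ (toC_bijective j ψ).1]

instance : MulAction.IsPretransitive (K ≃ₐ[ℚ] K) (E →ₐ[ℚ] K) :=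
  ⟨fun ψ θ => Pool.Agent.Q11.CZ.exists_lift ψ θ⟩

theorem conj_ne_one' : conjugation K ≠ 1 := by
  intro h
  apply IsCMField.complexConj_ne_one K
  apply AlgEquiv.ext
  intro x
  exact congrArg (fun g : K ≃ₐ[ℚ] K => g x) h

/-- A core with few elements. -/
theorem small_core {m : ℕ} (hm : HasCore E m) (hm3 : m ≤ 3) (ψ : E →ₐ[ℚ] K) : ∃ n,
    (core (K ≃ₐ[ℚ] K) (fun z : E →ₐ[ℚ] K => conjugation K • z) n ψ).ncard ≤ 6 := by
  obtain ⟨n, φ, hcard⟩ := hm
  obtain ⟨j⟩ : Nonempty (K →+* ℂ) := inferInstance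
  refine ⟨n, ?_⟩
  rw [ncard_core_toC j, ncard_core_eq n _ φ, hcard]
  omega

theorem height_mem (Φ : Finset (E →ₐ[ℚ] K)) (hΦ : IsCMType Φ)
    (hz : Pool.Agent.Q11.CZ.ZInv (Pool.Agent.Q11.CZ.T Φ : (K ≃ₐ[ℚ] K) → ℚ)) :
    heightFn Φ ∈ avgSpan K := by
  refine ((result K).1 _).mpr ⟨height_cm hΦ, ?_⟩
  rw [heightFn_eq]
  exact hz

theorem a0_mem (Φ : Finset (E →ₐ[ℚ] K)) (hΦ : IsCMType Φ) (ψ : E →ₐ[ℚ] K)
    (hz : Pool.Agent.Q11.CZ.ZInv (Pool.Agent.Q11.CZ.a0 ψ Φ : (K ≃ₐ[ℚ] K) → ℚ)) :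
    a0 ψ Φ ∈ avgSpan K := by
  refine ((result K).1 _).mpr ⟨a0_cm ψ hΦ, ?_⟩
  rw [a0_eq]
  exact hz

theorem zinv_T_empty [IsEmpty (E →ₐ[ℚ] K)] (Φ : Finset (E →ₐ[ℚ] K)) :
    Pool.Agent.Q11.CZ.ZInv (Pool.Agent.Q11.CZ.T Φ : (K ≃ₐ[ℚ] K) → ℚ) := by
  intro g g' _
  rw [Finset.eq_empty_of_isEmpty Φ]
  unfold Pool.Agent.Q11.CZ.T
  rw [Finset.sum_empty, Finset.sum_empty]

/-- **Faltings heights, cores with at most three pairs.** -/
theorem height_small {m : ℕ} (hm : HasCore E m) (hm3 : m ≤ 3) (Φ : Finset (E →ₐ[ℚ] K))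
    (hΦ : IsCMType Φ) : heightFn Φ ∈ avgSpan K := by
  refine height_mem Φ hΦ ?_
  rcases isEmpty_or_nonempty (E →ₐ[ℚ] K) with hX | ⟨⟨ψ⟩⟩
  · exact zinv_T_empty Φ
  · obtain ⟨n, hn⟩ := small_core hm hm3 ψ
    exact zinv_T_small Pool.Agent.Q11.CZ.conj_comm Pool.Agent.Q11.CZ.conj_mul_self
      (fun θ => Pool.Agent.N770.CP.conj_free θ) hn (isHalf hΦ)

/-- The automorphisms of `ℂ` which map an element of the core of index `n` into it act on this core
with order `1, 2, 3, 4` or `6`. -/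
def SmallOrders (E : Type) [Field E] (n : ℕ) : Prop :=
  ∀ (φ : E →+* ℂ) (σ : ℂ ≃+* ℂ), (σ : ℂ →+* ℂ).comp φ ∈ coreOf n φ →
    (∀ ψ ∈ coreOf n φ, ((σ ^ 4 : ℂ ≃+* ℂ) : ℂ →+* ℂ).comp ψ = ψ) ∨
      ∀ ψ ∈ coreOf n φ, ((σ ^ 6 : ℂ ≃+* ℂ) : ℂ →+* ℂ).comp ψ = ψ

/-- Any two elements of a core of index `n` can be exchanged. -/
def Exchanges (E : Type) [Field E] (n : ℕ) : Prop :=
  ∀ φ ψ : E →+* ℂ, ψ ∈ coreOf n φ →
    ∃ σ : ℂ ≃+* ℂ, (σ : ℂ →+* ℂ).comp φ = ψ ∧ (σ : ℂ →+* ℂ).comp ψ = φ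

theorem orders_toC {n : ℕ} (hn : SmallOrders E n) (ψ : E →ₐ[ℚ] K) (h : K ≃ₐ[ℚ] K)
    (hh : h • ψ ∈ core (K ≃ₐ[ℚ] K) (fun z : E →ₐ[ℚ] K => conjugation K • z) n ψ) :
    (∀ θ ∈ core (K ≃ₐ[ℚ] K) (fun z : E →ₐ[ℚ] K => conjugation K • z) n ψ, h ^ 4 • θ = θ) ∨
      ∀ θ ∈ core (K ≃ₐ[ℚ] K) (fun z : E →ₐ[ℚ] K => conjugation K • z) n ψ, h ^ 6 • θ = θ := by
  obtain ⟨j⟩ : Nonempty (K →+* ℂ) := inferInstance
  obtain ⟨σ, hσ⟩ := exists_aut_act (E := E) j h
  have hpow : ∀ (k : ℕ) (θ : E →ₐ[ℚ] K), toC j (h ^ k • θ) = σ ^ k • toC j θ := by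
    intro k
    induction k with
    | zero => intro θ; rw [pow_zero, pow_zero, one_smul, one_smul]
    | succ k ih => intro θ; rw [pow_succ, pow_succ, mul_smul, mul_smul, ih, hσ]
  have hinj := (toC_bijective (E := E) j ψ).1
  have h1 : (σ : ℂ →+* ℂ).comp (toC j ψ) ∈ coreOf n (toC j ψ) := by
    have h2 := (mem_core_toC j n ψ (h • ψ)).2 hh
    rw [hσ] at h2
    exact h2
  rcases hn _ σ h1 with h2 | h2
  · left
    intro θ hθ
    apply hinj
    rw [hpow]
    exact h2 _ ((mem_core_toC j n ψ θ).2 hθ)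
  · right
    intro θ hθ
    apply hinj
    rw [hpow]
    exact h2 _ ((mem_core_toC j n ψ θ).2 hθ)

/-- **Faltings heights, cores with small orders.** -/
theorem height_orders {n : ℕ} (hn : SmallOrders E n) (Φ : Finset (E →ₐ[ℚ] K))
    (hΦ : IsCMType Φ) : heightFn Φ ∈ avgSpan K :=
  height_mem Φ hΦ (zinv_T_exp Pool.Agent.Q11.CZ.conj_comm Pool.Agent.Q11.CZ.conj_mul_self
      (fun θ => Pool.Agent.N770.CP.conj_free θ) n (fun ψ h hh => orders_toC hn ψ h hh) (isHalf hΦ))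

/-- **Colmez's functions, cores with small orders whose elements can be exchanged.** -/
theorem a0_orders {n : ℕ} (hn : SmallOrders E n) (hex : Exchanges E n) (Φ : Finset (E →ₐ[ℚ] K))
    (hΦ : IsCMType Φ) (ψ : E →ₐ[ℚ] K) : a0 ψ Φ ∈ avgSpan K := by
  have hc := Pool.Agent.Q11.CZ.conj_comm (K := K)
  have hc2 := Pool.Agent.Q11.CZ.conj_mul_self (K := K)
  obtain ⟨j⟩ : Nonempty (K →+* ℂ) := inferInstance
  refine a0_mem Φ hΦ ψ (zinv_a0_core hc hc2
    (K := fun x => core (K ≃ₐ[ℚ] K) (fun z : E →ₐ[ℚ] K => conjugation K • z) n x)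
    (fun x => self_mem n x)
    (fun x y h => eq_of_mem h) (fun x z h => inv_mem (cc_smul hc2) (c_smul_comm hc) h)
    (fun x h z hz hhz w => smul_mem_core (cc_smul hc2) (c_smul_comm hc) hz hhz w)
    (fun x y h => sep_of_not_mem hc hc2 n x y h) (fun x h hx => orders_toC hn x h hx)
    (fun x y hy => ?_) ψ (isHalf hΦ))
  have hinj := (toC_bijective (E := E) j ψ).1
  obtain ⟨σ, h1, h2⟩ := hex _ _ ((mem_core_toC j n x y).2 hy)
  obtain ⟨g, hg⟩ := exists_gal_act (E := E) j σ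
  refine ⟨g, hinj ?_, hinj ?_⟩
  · rw [hg]
    exact h1
  · rw [hg]
    exact h2

/-- **Colmez's functions, cores with one pair.** -/
theorem a0_one (hm : HasCore E 1) (Φ : Finset (E →ₐ[ℚ] K)) (hΦ : IsCMType Φ)
    (ψ : E →ₐ[ℚ] K) : a0 ψ Φ ∈ avgSpan K := by
  obtain ⟨n, φ₀, hcard⟩ := hm
  have hmem : ∀ φ χ : E →+* ℂ, χ ∈ coreOf n φ → χ = φ ∨ χ = ComplexEmbedding.conjugate φ := by
    intro φ χ hχ
    have h1 : (coreOf n φ).ncard = 2 := by rw [ncard_core_eq n φ φ₀, hcard]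
    obtain ⟨a, b, hab, h2⟩ := Set.ncard_eq_two.1 h1
    have h3 : φ ∈ coreOf n φ := by
      rw [coreOf_eq]
      exact self_mem n φ
    have h4 : ComplexEmbedding.conjugate φ ∈ coreOf n φ := by
      rw [coreOf_eq] at h3 ⊢
      exact inv_mem Pool.Agent.H298.Core.conj_conj smul_conj h3
    have h5 := Pool.Agent.H298.Core.conj_ne φ
    rw [h2] at h3 h4 hχ
    simp only [Set.mem_insert_iff, Set.mem_singleton_iff] at h3 h4 hχ
    rcases h3 with h3 | h3 <;> rcases h4 with h4 | h4 <;> rcases hχ with h6 | h6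
    · exact absurd (h4.trans h3.symm) h5
    · exact absurd (h4.trans h3.symm) h5
    · exact Or.inl (h6.trans h3.symm)
    · exact Or.inr (h6.trans h4.symm)
    · exact Or.inr (h6.trans h4.symm)
    · exact Or.inl (h6.trans h3.symm)
    · exact absurd (h4.trans h3.symm) h5
    · exact absurd (h4.trans h3.symm) h5
  obtain ⟨τ, hτ⟩ : ∃ τ : ℂ ≃+* ℂ, ∀ χ : E →+* ℂ, (τ : ℂ →+* ℂ).comp χ =
      ComplexEmbedding.conjugate χ := ⟨starRingAut, fun χ => rfl⟩
  refine a0_orders (n := n) (fun φ σ h => ?_) (fun φ χ h => ?_) Φ hΦ ψ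
  · left
    have h1 : ∀ χ ∈ coreOf n φ, σ • (σ • χ) = χ := by
      have h2 : σ • (σ • φ) = φ := by
        rcases hmem _ _ h with e | e
        · change σ • φ = φ at e
          rw [e, e]
        · change σ • φ = ComplexEmbedding.conjugate φ at e
          rw [e, smul_conj, e, Pool.Agent.H298.Core.conj_conj]
      intro χ hχ
      rcases hmem _ _ hχ with rfl | rfl
      · exact h2
      · rw [smul_conj, smul_conj, h2]
    intro χ hχ
    change (σ ^ 4) • χ = χ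
    have h3 : σ ^ 4 = σ * σ * (σ * σ) := by simp only [pow_succ, pow_zero, one_mul, mul_assoc]
    rw [h3, mul_smul, mul_smul, mul_smul, h1 χ hχ, h1 χ hχ]
  · rcases hmem _ _ h with rfl | rfl
    · exact ⟨1, RingHom.ext fun _ => rfl, RingHom.ext fun _ => rfl⟩
    · refine ⟨τ, hτ φ, ?_⟩
      rw [hτ, Pool.Agent.H298.Core.conj_conj]

/-- Embeddings with the same stabilizer differ by an automorphism. -/
theorem exists_aut_of_stab {ψ θ : E →ₐ[ℚ] K}
    (h : ∀ s : K ≃ₐ[ℚ] K, s • ψ = ψ → s • θ = θ) :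
    ∃ a : E ≃ₐ[ℚ] E, θ = Pool.Agent.N770.CP.rr a ψ := by
  refine Pool.Agent.N770.CP.exists_of_range_eq ?_
  have hle : θ.fieldRange ≤ ψ.fieldRange := by
    rw [← IsGalois.fixedField_fixingSubgroup ψ.fieldRange, IntermediateField.le_iff_le]
    intro s hs
    rw [IntermediateField.mem_fixingSubgroup_iff] at hs ⊢
    have h1 : s • ψ = ψ := by
      apply AlgHom.ext
      intro x
      exact hs _ ⟨x, rfl⟩
    rintro _ ⟨x, rfl⟩
    exact congrArg (fun f : E →ₐ[ℚ] K => f x) (h s h1)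
  refine IntermediateField.eq_of_le_of_finrank_eq hle ?_
  have e1 : Module.finrank ℚ θ.fieldRange = Module.finrank ℚ E :=
    (LinearEquiv.finrank_eq (AlgEquiv.ofInjectiveField θ : E ≃ₐ[ℚ] θ.range).toLinearEquiv).symm
  have e2 : Module.finrank ℚ ψ.fieldRange = Module.finrank ℚ E :=
    (LinearEquiv.finrank_eq (AlgEquiv.ofInjectiveField ψ : E ≃ₐ[ℚ] ψ.range).toLinearEquiv).symm
  rw [e1, e2]

theorem rr_eq_iff (a b : E ≃ₐ[ℚ] E) (ψ : E →ₐ[ℚ] K) :
    Pool.Agent.N770.CP.rr a ψ = Pool.Agent.N770.CP.rr b ψ ↔ a = b := by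
  constructor
  · intro h
    have h1 : Pool.Agent.N770.CP.rr (b⁻¹ * a) ψ = ψ := by
      rw [Pool.Agent.N770.CP.rr_mul, h, ← Pool.Agent.N770.CP.rr_mul, inv_mul_cancel,
        Pool.Agent.N770.CP.rr_one]
    have h2 := Pool.Agent.N770.CP.rr_free _ _ h1
    rwa [inv_mul_eq_one, eq_comm] at h2
  · rintro rfl
    rfl

theorem aut_cond (hE : ∀ a : E ≃ₐ[ℚ] E, orderOf a ≠ 3 ∧ orderOf a ≠ 4) (ψ : E →ₐ[ℚ] K)
    (h : K ≃ₐ[ℚ] K) (hfix : ∀ s : K ≃ₐ[ℚ] K, s • ψ = ψ → s • (h • ψ) = h • ψ) :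
    h • (h • ψ) ≠ conjugation K • ψ ∧
      ((h • (h • (h • ψ)) = ψ ∨ h • (h • (h • ψ)) = conjugation K • ψ) →
        h • ψ = ψ ∨ h • ψ = conjugation K • ψ) := by
  obtain ⟨a, ha⟩ := exists_aut_of_stab hfix
  have hc2 : conjugation E * conjugation E = 1 := Pool.Agent.Q11.CZ.conj_mul_self
  have hc1 : conjugation E ≠ 1 := Pool.Agent.N770.CP.conj_ne_one
  have hg : ∀ (g : K ≃ₐ[ℚ] K) (b : E ≃ₐ[ℚ] E) (θ : E →ₐ[ℚ] K),
      g • Pool.Agent.N770.CP.rr b θ = Pool.Agent.N770.CP.rr b (g • θ) := fun g b θ => rfl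
  have h1 : Pool.Agent.N770.CP.rr 1 ψ = ψ := Pool.Agent.N770.CP.rr_one ψ
  have hcψ : Pool.Agent.N770.CP.rr (conjugation E) ψ = conjugation K • ψ :=
    Pool.Agent.N770.CP.rr_conj ψ
  have h2 : h • (h • ψ) = Pool.Agent.N770.CP.rr (a * a) ψ := by
    rw [ha, hg, ha, ← Pool.Agent.N770.CP.rr_mul]
  have h3 : h • (h • (h • ψ)) = Pool.Agent.N770.CP.rr (a * a * a) ψ := by
    rw [h2, hg, ha, ← Pool.Agent.N770.CP.rr_mul]
  refine ⟨fun e => ?_, fun e => ?_⟩
  · rw [h2, ← hcψ, rr_eq_iff] at e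
    apply (hE a).2
    have h4 : a ^ 2 = conjugation E := by rw [pow_two, e]
    have h5 : a ^ (2 ^ 1) ≠ 1 := by
      rw [pow_one, h4]
      exact hc1
    have h6 : a ^ (2 ^ 2) = 1 := by
      rw [show (2 : ℕ) ^ 2 = 2 * 2 by norm_num, pow_mul, h4, pow_two, hc2]
    have h7 := orderOf_eq_prime_pow h5 h6
    rw [h7]
    norm_num
  · rw [h3] at e
    have h8 : a = 1 ∨ a = conjugation E := by
      rcases e with e | e
      · left
        have e' : Pool.Agent.N770.CP.rr (a * a * a) ψ = Pool.Agent.N770.CP.rr 1 ψ := by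
          rw [h1]
          exact e
        rw [rr_eq_iff] at e'
        by_contra hne
        apply (hE a).1
        refine orderOf_eq_prime ?_ hne
        rw [pow_succ, pow_two, e']
      · right
        rw [← hcψ, rr_eq_iff] at e
        by_contra hne
        have h9 : a * a ≠ 1 := by
          intro h9
          rw [h9, one_mul] at e
          exact hne e
        apply (hE (a * a)).1
        refine orderOf_eq_prime ?_ h9
        have h10 : (a * a) ^ 3 = (a * a * a) * (a * a * a) := by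
          simp only [pow_succ, pow_zero, one_mul, mul_assoc]
        rw [h10, e, hc2]
    rcases h8 with rfl | rfl
    · left
      rw [ha, h1]
    · right
      rw [ha, hcψ]

/-- **Colmez's functions, cores with at most three pairs.** -/
theorem a0_small {m : ℕ} (hm : HasCore E m) (hm3 : m ≤ 3)
    (hE : ∀ a : E ≃ₐ[ℚ] E, orderOf a ≠ 3 ∧ orderOf a ≠ 4) (Φ : Finset (E →ₐ[ℚ] K))
    (hΦ : IsCMType Φ) (ψ : E →ₐ[ℚ] K) : a0 ψ Φ ∈ avgSpan K := by
  refine a0_mem Φ hΦ ψ ?_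
  obtain ⟨n, hn⟩ := small_core hm hm3 ψ
  exact zinv_a0_small Pool.Agent.Q11.CZ.conj_comm Pool.Agent.Q11.CZ.conj_mul_self
      (fun θ => Pool.Agent.N770.CP.conj_free θ) hn (fun θ h hfix => aut_cond hE θ h hfix) ψ
      (isHalf hΦ)

/-- The core of a field with a subfield whose extensions fill it. -/
theorem mem_core_iff {F : IntermediateField ℚ E} (hF : ¬ IsTotallyReal F) {n : ℕ} {φ : E →+* ℂ}
    (hcard : (coreOf n φ).ncard = 2 * finrank F E) (ψ : E →+* ℂ) (hψ : ψ ∈ coreOf n φ) :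
    (∀ x ∈ F, ψ x = φ x) ∨ ∀ x ∈ F, ψ x = ComplexEmbedding.conjugate φ x := by
  classical
  let A : Finset (E →+* ℂ) := Finset.univ.filter fun ψ => ∀ x ∈ F, ψ x = φ x
  let B : Finset (E →+* ℂ) := Finset.univ.filter fun ψ => ∀ x ∈ F,
    ψ x = ComplexEmbedding.conjugate φ x
  have hAcard : A.card = finrank F E := by
    rw [← card_extensions F φ, ← Fintype.card_coe, ← Nat.card_eq_fintype_card]
    exact Nat.card_congr (Equiv.subtypeEquivRight fun ψ => by simp [A])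
  have hBcard : B.card = finrank F E := by
    rw [← card_extensions F (ComplexEmbedding.conjugate φ), ← Fintype.card_coe,
      ← Nat.card_eq_fintype_card]
    exact Nat.card_congr (Equiv.subtypeEquivRight fun ψ => by simp [B])
  have hdisj : Disjoint A B := by
    rw [Finset.disjoint_left]
    intro ψ h1 h2
    obtain ⟨x, hx, hne⟩ := conj_ne_on hF φ
    have h3 := (Finset.mem_filter.1 h1).2 x hx
    have h4 := (Finset.mem_filter.1 h2).2 x hx
    exact hne (h4.symm.trans h3)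
  have hconj : ∀ χ : E →+* ℂ, χ ∈ coreOf n φ → ComplexEmbedding.conjugate χ ∈ coreOf n φ := by
    intro χ hχ
    rw [coreOf_eq] at hχ ⊢
    exact inv_mem Pool.Agent.H298.Core.conj_conj smul_conj hχ
  have hsub : ((A ∪ B : Finset (E →+* ℂ)) : Set (E →+* ℂ)) ⊆ coreOf n φ := by
    intro χ hχ
    rcases Finset.mem_union.1 (Finset.mem_coe.1 hχ) with h | h
    · exact ext_mem_coreOf hF n (Finset.mem_filter.1 h).2
    · have h1 : ComplexEmbedding.conjugate χ ∈ coreOf n φ := by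
        refine ext_mem_coreOf hF n fun x hx => ?_
        have h2 := (Finset.mem_filter.1 h).2 x hx
        rw [ComplexEmbedding.conjugate_coe_eq, h2, ComplexEmbedding.conjugate_coe_eq,
          Complex.conj_conj]
      have h2 := hconj _ h1
      rwa [Pool.Agent.H298.Core.conj_conj] at h2
  have heq : ((A ∪ B : Finset (E →+* ℂ)) : Set (E →+* ℂ)) = coreOf n φ := by
    refine Set.eq_of_subset_of_ncard_le hsub ?_ (Set.toFinite _)
    rw [Set.ncard_coe_finset, Finset.card_union_of_disjoint hdisj, hAcard, hBcard, hcard]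
    omega
  rw [← heq] at hψ
  rcases Finset.mem_union.1 (Finset.mem_coe.1 hψ) with h | h
  · exact Or.inl (Finset.mem_filter.1 h).2
  · exact Or.inr (Finset.mem_filter.1 h).2

/-- **Colmez's functions, cores which are doubly transitive over a subfield.** -/
theorem a0_doublyTransitive {F : IntermediateField ℚ E} (hm : HasCore E (finrank F E))
    (hF : ¬ IsTotallyReal F) (hF2 : DoublyTransitive F) (Φ : Finset (E →ₐ[ℚ] K))
    (hΦ : IsCMType Φ) (ψ : E →ₐ[ℚ] K) : a0 ψ Φ ∈ avgSpan K := by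
  refine a0_mem Φ hΦ ψ ?_
  obtain ⟨j⟩ : Nonempty (K →+* ℂ) := inferInstance
  obtain ⟨n, φ, hcard⟩ := hm
  have hcard' : ∀ θ : E →ₐ[ℚ] K, (coreOf n (toC j θ)).ncard = 2 * finrank F E := by
    intro θ
    rw [ncard_core_eq n _ φ, hcard]
  let ρ : (E →ₐ[ℚ] K) → (F →ₐ[ℚ] K) := fun θ => θ.comp F.val
  have hρiff : ∀ θ χ : E →ₐ[ℚ] K, ρ χ = ρ θ ↔ ∀ x ∈ F, toC j χ x = toC j θ x := by
    intro θ χ
    constructor
    · intro h x hx
      exact congrArg j (congrArg (fun f : F →ₐ[ℚ] K => f ⟨x, hx⟩) h)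
    · intro h
      apply AlgHom.ext
      intro x
      exact j.injective (h x x.2)
  have hρc : ∀ θ χ : E →ₐ[ℚ] K, ρ χ = conjugation K • ρ θ ↔
      ∀ x ∈ F, toC j χ x = ComplexEmbedding.conjugate (toC j θ) x := by
    intro θ χ
    have h1 : conjugation K • ρ θ = ρ (conjugation K • θ) := rfl
    rw [h1, hρiff, toC_conj]
  refine zinv_a0_block (ρ := ρ) Pool.Agent.Q11.CZ.conj_comm Pool.Agent.Q11.CZ.conj_mul_self
    (fun g x => rfl) conj_ne_one' ?_ ?_ ψ (isHalf hΦ)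
  · intro x y h1 h2
    refine sep_of_not_mem Pool.Agent.Q11.CZ.conj_comm Pool.Agent.Q11.CZ.conj_mul_self n x y ?_
    intro h3
    rcases mem_core_iff hF (hcard' x) (toC j y) ((mem_core_toC j n x y).2 h3) with h4 | h4
    · exact h1 ((hρiff _ _).2 h4)
    · exact h2 ((hρc _ _).2 h4)
  · intro x y y' h1 h2 h3 h4
    have hinj := (toC_bijective (E := E) j x).1
    obtain ⟨σ, hσ1, hσ2⟩ := hF2 (toC j x) (toC j y) (toC j x) (toC j y') ((hρiff _ _).1 h1)
      (fun _ _ => rfl) ((hρiff _ _).1 h2) (fun e => h3 (hinj e).symm) (fun e => h4 (hinj e).symm)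
    obtain ⟨g, hg⟩ := exists_gal_act (E := E) j σ
    refine ⟨g, hinj ?_, hinj ?_⟩
    · rw [hg]
      exact hσ1
    · rw [hg]
      exact hσ2

end Pool.Agent.H298.Colmez
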