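import Pool.Agent.H298.Core.Basic
import Pool.Graph.R_pool_sql_team_seeded_63374d34.N770.CP.Core

/-!
# Colmez's class functions of fields with a small core: the group theory
-/

set_option autoImplicit false
set_option linter.unusedSectionVars false
set_option linter.unusedVariables false

open scoped Classical

namespace Pool.Agent.H298.Colmez

open Pool.Agent.Q11.CZ Pool.Agent.N770.CP Pool.Agent.H298.Core

variable {G : Type} [Group G] [Fintype G] {X : Type} [MulAction G X]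

/-- The indicator of a proposition. -/
noncomputable def ind (P : Prop) : ℤ := if P then 1 else 0

theorem ind_congr {P Q : Prop} (h : P ↔ Q) : ind P = ind Q := by
  unfold ind
  simp only [h]

theorem ind_zero {P : Prop} (h : ¬ P) : ind P = 0 := by
  unfold ind
  rw [if_neg h]

theorem cnt_eq_sum (x y : X) (g : G) :
    (cnt x y g : ℤ) = ∑ h : G, ind ((h⁻¹ * g * h) • x = y) := by
  unfold cnt ind
  rw [Finset.sum_boole]

theorem conj_pow' (g h : G) (j : ℕ) : h⁻¹ * g ^ j * h = (h⁻¹ * g * h) ^ j := by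
  have := conj_pow (i := j) (a := h⁻¹) (b := g)
  rw [inv_inv] at this
  exact this.symm

/-- The difference of the numbers for `y` and `c y`. -/
noncomputable def dif (c : G) (x y : X) (g : G) : ℤ := (cnt x y g : ℤ) - cnt x (c • y) g

section

variable {c : G}

theorem dif_unlinked {x y : X} {k : G} (hk : k • x = x) (hy : k • y = c • y) (g : G) :
    dif c x y g = 0 := by
  unfold dif
  rw [cnt_unlinked hk hy, sub_self]

theorem cnt_smul (t : G) (x y : X) (g : G) : cnt (t • x) (t • y) g = cnt x y g := by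
  unfold cnt
  refine Finset.card_bijective (fun h => h * t) (Group.mulRight_bijective t) (fun h => ?_)
  simp only [Finset.mem_filter, Finset.mem_univ, true_and]
  have h1 : (h * t)⁻¹ * g * (h * t) = t⁻¹ * ((h⁻¹ * g * h) * t) := by group
  rw [h1, mul_smul t⁻¹, inv_smul_eq_iff, mul_smul (h⁻¹ * g * h) t]

theorem dif_smul (hc : ∀ g, c * g = g * c) (t : G) (x y : X) (g : G) :
    dif c (t • x) (t • y) g = dif c x y g := by
  unfold dif
  rw [cnt_smul, ← mul_smul c t, hc, mul_smul, cnt_smul]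

theorem dif_c (hc2 : c * c = 1) (x y : X) (g : G) : dif c x (c • y) g = -dif c x y g := by
  unfold dif
  rw [← mul_smul, hc2, one_smul]
  ring

theorem pow_smul_mem {K : Set X} {v : G} (hv : ∀ w ∈ K, v • w ∈ K) (i : ℕ) {x : X} (hx : x ∈ K) :
    v ^ i • x ∈ K := by
  induction i with
  | zero => rwa [pow_zero, one_smul]
  | succ i ih =>
    rw [pow_succ', mul_smul]
    exact hv _ ih

theorem pow_mul_smul {v : G} {m : ℕ} {y : X} (h : v ^ m • y = y) (q : ℕ) : v ^ (m * q) • y = y := by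
  rw [pow_mul]
  induction q with
  | zero => rw [pow_zero, one_smul]
  | succ q ih => rw [pow_succ, mul_smul, h, ih]

theorem pow_mod_smul {v : G} {m : ℕ} {y : X} (h : v ^ m • y = y) (j : ℕ) :
    v ^ j • y = v ^ (j % m) • y := by
  conv_lhs => rw [← Nat.mod_add_div j m, pow_add, mul_smul, pow_mul_smul h]

theorem pow_cases {K : Set X} {h : G}
    (h4 : (∀ y ∈ K, h ^ 4 • y = y) ∨ ∀ y ∈ K, h ^ 6 • y = y) {j : ℕ} (hj : j.Coprime 6) :
    (∀ y ∈ K, h ^ j • y = h • y) ∨ ∀ y ∈ K, h ^ j • y = h⁻¹ • y := by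
  have h2 : j % 2 = 1 := by
    have h1 : j.Coprime 2 := Nat.Coprime.coprime_dvd_right (by norm_num) hj
    have h3 : ¬ 2 ∣ j := fun h => by
      have := Nat.dvd_gcd h (dvd_refl 2)
      rw [h1] at this
      omega
    omega
  have h3 : j % 3 ≠ 0 := by
    have h1 : j.Coprime 3 := Nat.Coprime.coprime_dvd_right (by norm_num) hj
    intro h
    have := Nat.dvd_gcd (Nat.dvd_of_mod_eq_zero h) (dvd_refl 3)
    rw [h1] at this
    omega
  rcases h4 with h4 | h4
  · have h5 : j % 4 = 1 ∨ j % 4 = 3 := by omega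
    rcases h5 with h5 | h5
    · left
      intro y hy
      rw [pow_mod_smul (h4 y hy), h5, pow_one]
    · right
      intro y hy
      rw [pow_mod_smul (h4 y hy), h5, eq_inv_smul_iff, ← mul_smul, ← pow_succ']
      exact h4 y hy
  · have h5 : j % 6 = 1 ∨ j % 6 = 5 := by omega
    rcases h5 with h5 | h5
    · left
      intro y hy
      rw [pow_mod_smul (h4 y hy), h5, pow_one]
    · right
      intro y hy
      rw [pow_mod_smul (h4 y hy), h5, eq_inv_smul_iff, ← mul_smul, ← pow_succ']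
      exact h4 y hy

/-- The symmetric sums are invariant. -/
theorem dif_add_pow (hc : ∀ g, c * g = g * c) (hc2 : c * c = 1) {K : Set X} {x y : X}
    (hx : x ∈ K) (hy : y ∈ K) (hKc : ∀ z ∈ K, c • z ∈ K)
    (hK : ∀ h : G, ∀ z ∈ K, h • z ∈ K → ∀ w, h • w ∈ K ↔ w ∈ K)
    (hexp : ∀ h : G, h • x ∈ K → (∀ z ∈ K, h ^ 4 • z = z) ∨ ∀ z ∈ K, h ^ 6 • z = z)
    (g : G) {j : ℕ} (hj : j.Coprime (6 * Nat.card G)) :
    dif c x y (g ^ j) + dif c y x (g ^ j) = dif c x y g + dif c y x g := by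
  have hcinv : c⁻¹ = c := by rw [inv_eq_iff_mul_eq_one, hc2]
  have hj6 : j.Coprime 6 := Nat.Coprime.coprime_dvd_right (Dvd.intro _ rfl) hj
  have hjG : j.Coprime (Nat.card G) := Nat.Coprime.coprime_dvd_right (Dvd.intro_left _ rfl) hj
  let term : G → ℤ := fun u => ind (u • x = y) - ind (u • x = c • y) +
    (ind (u • y = x) - ind (u • y = c • x))
  have hsum : ∀ g : G, dif c x y g + dif c y x g = ∑ h : G, term (h⁻¹ * g * h) := by
    intro g
    unfold dif
    rw [cnt_eq_sum, cnt_eq_sum, cnt_eq_sum, cnt_eq_sum, ← Finset.sum_sub_distrib,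
      ← Finset.sum_sub_distrib, ← Finset.sum_add_distrib]
  have hzero : ∀ u : G, u • x ∉ K → term u = 0 := by
    intro u hu
    have e1 : ¬ u • x = y := fun h => hu (h ▸ hy)
    have e2 : ¬ u • x = c • y := fun h => hu (h ▸ hKc y hy)
    have e3 : ¬ u • y = x := fun h => hu ((hK u y hy (h ▸ hx) x).2 hx)
    have e4 : ¬ u • y = c • x := fun h => hu ((hK u y hy (h ▸ hKc x hx) x).2 hx)
    change ind _ - ind _ + (ind _ - ind _) = 0
    rw [ind_zero e1, ind_zero e2, ind_zero e3, ind_zero e4]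
    rfl
  rw [hsum, hsum]
  refine Finset.sum_congr rfl fun h _ => ?_
  rw [conj_pow']
  set u := h⁻¹ * g * h with hu
  by_cases hux : u • x ∈ K
  · rcases pow_cases (hexp u hux) hj6 with h1 | h1
    · change ind _ - ind _ + (ind _ - ind _) = ind _ - ind _ + (ind _ - ind _)
      rw [h1 x hx, h1 y hy]
    · change ind _ - ind _ + (ind _ - ind _) = ind _ - ind _ + (ind _ - ind _)
      rw [h1 x hx, h1 y hy]
      have e1 : ∀ a b : X, (u⁻¹ • a = b) ↔ (u • b = a) := fun a b => by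
        rw [inv_smul_eq_iff, eq_comm]
      have e2 : ∀ a b : X, (u⁻¹ • a = c • b) ↔ (u • b = c • a) := fun a b => by
        rw [inv_smul_eq_iff, ← mul_smul, ← hc, mul_smul, ← inv_smul_eq_iff, hcinv, eq_comm]
      rw [ind_congr (e1 x y), ind_congr (e2 x y), ind_congr (e1 y x), ind_congr (e2 y x)]
      ring
  · rw [hzero u hux, hzero]
    intro hcon
    apply hux
    have h1 := zpowers_pow hjG u
    have h2 : u ∈ Subgroup.zpowers (u ^ j) := by
      rw [h1]
      exact Subgroup.mem_zpowers _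
    rw [← mem_powers_iff_mem_zpowers, Submonoid.mem_powers_iff] at h2
    obtain ⟨i, hi⟩ := h2
    rw [← hi]
    exact pow_smul_mem (fun w hw => (hK _ x hx hcon w).2 hw) i hx

/-- A lift of an exponent to one which is prime to six. -/
theorem exists_exponent {g g' : G} (h : Subgroup.zpowers g = Subgroup.zpowers g') :
    ∃ j : ℕ, j.Coprime (6 * Nat.card G) ∧ g' = g ^ j := by
  let A := Multiplicative (ZMod 6)
  have h1 : Subgroup.zpowers ((g, 1) : G × A) = Subgroup.zpowers ((g', 1) : G × A) := by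
    have h2 : ∀ g : G, Subgroup.zpowers ((g, 1) : G × A) =
        (Subgroup.zpowers g).map (MonoidHom.inl G A) := by
      intro g
      rw [MonoidHom.map_zpowers]
      rfl
    rw [h2, h2, h]
  obtain ⟨u, hu⟩ := exists_unit h1
  refine ⟨(u : ZMod (Nat.card (G × A))).val, ?_, congrArg Prod.fst hu⟩
  have h3 := ZMod.val_coe_unit_coprime u
  have h4 : Nat.card (G × A) = 6 * Nat.card G := by
    rw [Nat.card_prod, mul_comm]
    congr 1
    change Nat.card (ZMod 6) = 6
    rw [Nat.card_eq_fintype_card, ZMod.card]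
  exact h4 ▸ h3

theorem a0_sub (hc : ∀ g, c * g = g * c) (hc2 : c * c = 1) (x : X) (Φ : Finset X) (g : G) :
    a0 x Φ g - a0 x Φ (c * g) = ((∑ y ∈ Φ, dif c x y g : ℤ) : ℚ) / Fintype.card G := by
  rw [a0_cnt, a0_cnt, ← sub_div, ← Finset.sum_sub_distrib]
  congr 1
  unfold dif
  push_cast
  refine Finset.sum_congr rfl (fun y _ => ?_)
  rw [cnt_c hc x y hc2]

theorem T_sub (hc : ∀ g, c * g = g * c) (hc2 : c * c = 1) (Φ : Finset X) (g : G) :
    T Φ g - T Φ (c * g) = ((∑ x ∈ Φ, ∑ y ∈ Φ, dif c x y g : ℤ) : ℚ) / Fintype.card G := by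
  unfold T
  rw [← Finset.sum_sub_distrib, Finset.sum_congr rfl fun x _ => a0_sub hc hc2 x Φ g,
    ← Finset.sum_div]
  push_cast
  rfl

variable (hc : ∀ g, c * g = g * c) (hc2 : c * c = 1) {K : X → Set X} (hself : ∀ x, x ∈ K x)
  (heq : ∀ x y, y ∈ K x → K y = K x) (hKc : ∀ x, ∀ z ∈ K x, c • z ∈ K x)
  (hK : ∀ x, ∀ h : G, ∀ z ∈ K x, h • z ∈ K x → ∀ w, h • w ∈ K x ↔ w ∈ K x)
  (hsep : ∀ x y, y ∉ K x → ∃ k : G, k • x = x ∧ k • y = c • y)
  (hexp : ∀ x, ∀ h : G, h • x ∈ K x → (∀ z ∈ K x, h ^ 4 • z = z) ∨ ∀ z ∈ K x, h ^ 6 • z = z)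
include hc hc2 hself heq hKc hK hsep hexp

theorem dif_add_pow_core (x y : X) (g : G) {j : ℕ} (hj : j.Coprime (6 * Nat.card G)) :
    dif c x y (g ^ j) + dif c y x (g ^ j) = dif c x y g + dif c y x g := by
  by_cases hy : y ∈ K x
  · exact dif_add_pow hc hc2 (hself x) hy (hKc x) (hK x) (hexp x) g hj
  · have hx : x ∉ K y := fun h => hy (heq _ _ h ▸ hself y)
    obtain ⟨k, h1, h2⟩ := hsep x y hy
    obtain ⟨k', h3, h4⟩ := hsep y x hx
    rw [dif_unlinked h1 h2, dif_unlinked h1 h2, dif_unlinked h3 h4, dif_unlinked h3 h4]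

/-- **The functions of the Faltings heights.** -/
theorem zinv_T_core {Φ : Finset X} (hΦ : IsHalf c Φ) : ZInv (T Φ : G → ℚ) := by
  intro g g' hgg
  obtain ⟨j, hj, rfl⟩ := exists_exponent hgg
  have key : (∑ x ∈ Φ, ∑ y ∈ Φ, dif c x y (g ^ j) : ℤ) = ∑ x ∈ Φ, ∑ y ∈ Φ, dif c x y g := by
    have h1 : ∀ g : G, (∑ x ∈ Φ, ∑ y ∈ Φ, (dif c x y g + dif c y x g) : ℤ) =
        2 * ∑ x ∈ Φ, ∑ y ∈ Φ, dif c x y g := by
      intro g
      simp only [Finset.sum_add_distrib]
      rw [Finset.sum_comm (f := fun x y => dif c y x g)]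
      ring
    have h2 : (∑ x ∈ Φ, ∑ y ∈ Φ, (dif c x y (g ^ j) + dif c y x (g ^ j)) : ℤ) =
        ∑ x ∈ Φ, ∑ y ∈ Φ, (dif c x y g + dif c y x g) :=
      Finset.sum_congr rfl fun x _ => Finset.sum_congr rfl fun y _ =>
        dif_add_pow_core hc hc2 hself heq hKc hK hsep hexp x y g hj
    rw [h1, h1] at h2
    omega
  have h1 := T_add hc hΦ g
  have h2 := T_add hc hΦ (g ^ j)
  have h3 := T_sub hc hc2 Φ g
  have h4 := T_sub hc hc2 Φ (g ^ j)
  rw [key] at h4
  linarith

/-- **Colmez's functions**, if the pairs which are not separated can be exchanged. -/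
theorem zinv_a0_core
    (hswap : ∀ x y, y ∈ K x → ∃ t : G, t • x = y ∧ t • y = x) (x : X)
    {Φ : Finset X} (hΦ : IsHalf c Φ) : ZInv (a0 x Φ : G → ℚ) := by
  intro g g' hgg
  obtain ⟨j, hj, rfl⟩ := exists_exponent hgg
  have key : (∑ y ∈ Φ, dif c x y (g ^ j) : ℤ) = ∑ y ∈ Φ, dif c x y g := by
    refine Finset.sum_congr rfl fun y _ => ?_
    have h1 := dif_add_pow_core hc hc2 hself heq hKc hK hsep hexp x y g hj
    by_cases hy : y ∈ K x
    · obtain ⟨t, h2, h3⟩ := hswap x y hy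
      have h4 : ∀ g : G, dif c y x g = dif c x y g := by
        intro g
        have h5 := dif_smul hc t x y g
        rwa [h2, h3] at h5
      rw [h4, h4] at h1
      omega
    · obtain ⟨k, h2, h3⟩ := hsep x y hy
      rw [dif_unlinked h2 h3, dif_unlinked h2 h3]
  have h1 := a0_add hc x hΦ g
  have h2 := a0_add hc x hΦ (g ^ j)
  have h3 := a0_sub hc hc2 x Φ g
  have h4 := a0_sub hc hc2 x Φ (g ^ j)
  rw [key] at h4
  linarith

end

end Pool.Agent.H298.Colmez
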