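import Pool.Agent.H298.Colmez.Final

/-!
# Exchanging the elements of a small core
-/

set_option autoImplicit false
set_option linter.unusedSectionVars false
set_option linter.unusedVariables false

open scoped Classical

namespace Pool.Agent.H298.Colmez

open Pool.Agent.Q11.CZ Pool.Agent.N770.CP Pool.Agent.H298.Core

variable {G : Type} [Group G] {X : Type} [MulAction G X] {c : G}

section

variable (hc : ∀ g, c * g = g * c) (hc2 : c * c = 1) (hne : ∀ x : X, c • x ≠ x)
include hc hc2 hne

theorem six {K : Set X} (hfin : K.Finite) (hcard : K.ncard ≤ 6) (hKc : ∀ z ∈ K, c • z ∈ K)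
    {x y z : X} (hx : x ∈ K) (hy : y ∈ K) (hz : z ∈ K) (n1 : y ≠ x) (n2 : y ≠ c • x)
    (n3 : z ≠ x) (n4 : z ≠ c • x) (n5 : z ≠ y) (n6 : z ≠ c • y) :
    ∀ w ∈ K, w = x ∨ w = c • x ∨ w = y ∨ w = c • y ∨ w = z ∨ w = c • z := by
  have hcc := cc_smul (X := X) hc2
  have hcinj : ∀ a b : X, c • a = c • b → a = b := fun a b e => MulAction.injective c e
  have hsw : ∀ a b : X, a = c • b → b = c • a := fun a b e => by rw [e, hcc]
  let S : Finset X := {x, c • x, y, c • y, z, c • z}
  have hS : S.card = 6 := by
    change Finset.card {x, c • x, y, c • y, z, c • z} = 6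
    have m1 : x ≠ c • x := (hne x).symm
    have m2 : x ≠ y := n1.symm
    have m3 : x ≠ c • y := fun e => n2 (hsw _ _ e)
    have m4 : x ≠ z := n3.symm
    have m5 : x ≠ c • z := fun e => n4 (hsw _ _ e)
    have m6 : c • x ≠ y := n2.symm
    have m7 : c • x ≠ c • y := fun e => m2 (hcinj _ _ e)
    have m8 : c • x ≠ z := n4.symm
    have m9 : c • x ≠ c • z := fun e => m4 (hcinj _ _ e)
    have m10 : y ≠ c • y := (hne y).symm
    have m11 : y ≠ z := n5.symm
    have m12 : y ≠ c • z := fun e => n6 (hsw _ _ e)
    have m13 : c • y ≠ z := n6.symm
    have m14 : c • y ≠ c • z := fun e => m11 (hcinj _ _ e)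
    have m15 : z ≠ c • z := (hne z).symm
    rw [Finset.card_insert_of_notMem (by simp [m1, m2, m3, m4, m5]),
      Finset.card_insert_of_notMem (by simp [m6, m7, m8, m9]),
      Finset.card_insert_of_notMem (by simp [m10, m11, m12]),
      Finset.card_insert_of_notMem (by simp [m13, m14]),
      Finset.card_insert_of_notMem (by simp [m15]), Finset.card_singleton]
  have hsub : (S : Set X) ⊆ K := by
    intro w hw
    have hw' : w ∈ S := hw
    simp only [S, Finset.mem_insert, Finset.mem_singleton] at hw'
    rcases hw' with rfl | rfl | rfl | rfl | rfl | rfl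
    · exact hx
    · exact hKc _ hx
    · exact hy
    · exact hKc _ hy
    · exact hz
    · exact hKc _ hz
  have heq : (S : Set X) = K := by
    refine Set.eq_of_subset_of_ncard_le hsub ?_ hfin
    rw [Set.ncard_coe_finset, hS]
    exact hcard
  intro w hw
  rw [← heq] at hw
  have hw' : w ∈ S := hw
  simpa only [S, Finset.mem_insert, Finset.mem_singleton] using hw'

/-- Elements of a small core can be exchanged, if there are no automorphisms of the orders three and
four. -/
theorem swap_small {K : Set X} (hfin : K.Finite) (hcard : K.ncard ≤ 6)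
    (hKc : ∀ z ∈ K, c • z ∈ K)
    (hK : ∀ h : G, ∀ z ∈ K, h • z ∈ K → ∀ w, h • w ∈ K ↔ w ∈ K)
    (hrig : ∀ r : G, (∀ w ∈ K, r • w = w ∨ r • w = c • w) →
      (∀ w ∈ K, r • w = w) ∨ ∀ w ∈ K, r • w = c • w)
    {x : X} (hx : x ∈ K) {h : G} (hy : h • x ∈ K)
    (haut : (∀ s : G, s • x = x → s • (h • x) = h • x) → h • (h • x) ≠ c • x ∧
      ((h • (h • (h • x)) = x ∨ h • (h • (h • x)) = c • x) → h • x = x ∨ h • x = c • x)) :
    ∃ t : G, t • x = h • x ∧ t • (h • x) = x := by
  have hcc := cc_smul (X := X) hc2
  have hcm := c_smul_comm (X := X) hc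
  have hinj : ∀ (g : G) (a b : X), g • a = g • b → a = b := fun g a b e => MulAction.injective g e
  have hhK : ∀ w, h • w ∈ K ↔ w ∈ K := hK h x hx hy
  by_cases e1 : h • x = x
  · exact ⟨1, by rw [one_smul, e1], by rw [one_smul, e1]⟩
  by_cases e2 : h • x = c • x
  · exact ⟨c, e2.symm, by rw [e2, hcc]⟩
  by_cases e3 : h • (h • x) = x
  · exact ⟨h, rfl, e3⟩
  -- an element of the stabilizer which moves the second element
  have hstab : ∀ s : G, s • x = x → s • (h • x) ≠ h • x →
      s • (h • x) ∈ K ∧ s • (h • x) ≠ x ∧ s • (h • x) ≠ c • x := by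
    intro s hs hsy
    have hsK := hK s x hx (by rwa [hs])
    refine ⟨(hsK _).2 hy, fun e => e1 (hinj s _ _ (by rw [e, hs])), fun e => e2 (hinj s _ _ ?_)⟩
    rw [e, hcm, hs]
  by_cases e4 : h • (h • x) = c • x
  · -- an automorphism of order four, or a contradiction
    by_cases hfix : ∀ s : G, s • x = x → s • (h • x) = h • x
    · exact absurd e4 (haut hfix).1
    · exfalso
      push Not at hfix
      obtain ⟨s, hs, hsy⟩ := hfix
      have hsK := hK s x hx (by rwa [hs])
      -- there is an element which is not mapped to itself or its conjugate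
      obtain ⟨w, hw, hw1, hw2⟩ : ∃ w ∈ K, s • w ≠ w ∧ s • w ≠ c • w := by
        by_contra hcon
        push Not at hcon
        rcases hrig s (fun w hw => by
          by_cases h1 : s • w = w
          · exact Or.inl h1
          · exact Or.inr (hcon w hw h1)) with h1 | h1
        · exact hsy (h1 _ hy)
        · have h2 := h1 x hx
          rw [hs] at h2
          exact hne x h2.symm
      have hwx : w ≠ x := fun e => hw1 (by rw [e, hs])
      have hwcx : w ≠ c • x := fun e => hw1 (by rw [e, hcm, hs])
      have h6 := six hc hc2 hne hfin hcard hKc hx hw ((hsK w).2 hw) hwx hwcx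
        (fun e => hwx (hinj s _ _ (by rw [e, hs])))
        (fun e => hwcx (hinj s _ _ (by rw [e, hcm, hs]))) hw1 hw2
      -- a third element
      obtain ⟨z, hz, z1, z2, z3, z4⟩ : ∃ z ∈ K, z ≠ x ∧ z ≠ c • x ∧ z ≠ h • x ∧ z ≠ c • (h • x) := by
        by_cases h1 : w = h • x ∨ w = c • (h • x)
        · refine ⟨s • w, (hsK w).2 hw, fun e => hwx (hinj s _ _ (by rw [e, hs])),
            fun e => hwcx (hinj s _ _ (by rw [e, hcm, hs])), ?_, ?_⟩
          · rcases h1 with h1 | h1
            · rw [← h1]; exact hw1
            · intro e
              apply hw2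
              rw [e]
              rw [h1, hcc]
          · rcases h1 with h1 | h1
            · rw [← h1]; exact hw2
            · intro e
              apply hw1
              rw [e, h1]
        · push Not at h1
          exact ⟨w, hw, hwx, hwcx, h1.1, h1.2⟩
      have h7 := six hc hc2 hne hfin hcard hKc hx hy hz e1 e2 z1 z2 z3 z4
      have hhz : h • z = z ∨ h • z = c • z := by
        rcases h7 _ ((hhK z).2 hz) with e | e | e | e | e | e
        · exfalso
          rw [← hcc x, ← e4, ← hcm, ← hcm] at e
          exact z4 (hinj h _ _ (by rw [e, hcm]))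
        · exfalso
          rw [← e4] at e
          exact z3 (hinj h _ _ e)
        · exact absurd (hinj h _ _ e) z1
        · rw [← hcm] at e
          exact absurd (hinj h _ _ e) z2
        · exact Or.inl e
        · exact Or.inr e
      have hhz2 : (h * h) • z = z := by
        rw [mul_smul]
        rcases hhz with e | e
        · rw [e, e]
        · rw [e, hcm, e, hcc]
      have hhx2 : (h * h) • x = c • x := by rw [mul_smul, e4]
      have hhy2 : (h * h) • (h • x) = c • (h • x) := by rw [mul_smul, e4, hcm]
      rcases hrig (h * h) (fun w hw => by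
        rcases h7 w hw with rfl | rfl | rfl | rfl | rfl | rfl
        · exact Or.inr hhx2
        · exact Or.inr (by rw [hcm, hhx2])
        · exact Or.inr hhy2
        · exact Or.inr (by rw [hcm, hhy2])
        · exact Or.inl hhz2
        · exact Or.inl (by rw [hcm, hhz2])) with h8 | h8
      · exact hne x (by rw [← hhx2]; exact h8 x hx)
      · have h9 := h8 z hz
        rw [hhz2] at h9
        exact hne z h9.symm
  · -- three pairs
    set y := h • x with hydef
    set z := h • y with hzdef
    have hz : z ∈ K := (hhK y).2 hy
    have z3 : z ≠ y := fun e => e1 (hinj h _ _ e)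
    have z4 : z ≠ c • y := fun e => e2 (hinj h _ _ (by rw [hcm]; exact e))
    have h7 := six hc hc2 hne hfin hcard hKc hx hy hz e1 e2 e3 e4 z3 z4
    have hhz : h • z = x ∨ h • z = c • x := by
      rcases h7 _ ((hhK z).2 hz) with e | e | e | e | e | e
      · exact Or.inl e
      · exact Or.inr e
      · exact absurd (hinj h _ _ e) e3
      · rw [hydef, ← hcm] at e
        exact absurd (hinj h _ _ e) e4
      · exact absurd (hinj h _ _ e) z3
      · rw [hzdef, ← hcm] at e
        exact absurd (hinj h _ _ e) z4
    by_cases hfix : ∀ s : G, s • x = x → s • y = y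
    · exfalso
      rcases (haut hfix).2 hhz with h1 | h1
      · exact e1 h1
      · exact e2 h1
    · push Not at hfix
      obtain ⟨s, hs, hsy⟩ := hfix
      have hsK := hK s x hx (by rwa [hs])
      obtain ⟨-, hsy1, hsy2⟩ := hstab s hs hsy
      have hszx : s • z ≠ x := fun e => e3 (hinj s _ _ (by rw [hs]; exact e))
      have hszcx : s • z ≠ c • x := fun e => e4 (hinj s _ _ (by rw [hcm, hs]; exact e))
      -- the image of the second element
      have hsyz : s • y = z ∨ s • y = c • z := by
        rcases h7 _ ((hsK y).2 hy) with e | e | e | e | e | e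
        · exact absurd e hsy1
        · exact absurd e hsy2
        · exact absurd e hsy
        · exfalso
          have hsz : s • z = z ∨ s • z = c • z := by
            rcases h7 _ ((hsK z).2 hz) with e' | e' | e' | e' | e' | e'
            · exact absurd e' hszx
            · exact absurd e' hszcx
            · exfalso
              refine z4 (hinj s _ _ ?_)
              rw [e', hcm, e, hcc]
            · exfalso
              refine z3 (hinj s _ _ ?_)
              rw [e', e]
            · exact Or.inl e'
            · exact Or.inr e'
          rcases hrig s (fun w hw => by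
            rcases h7 w hw with rfl | rfl | rfl | rfl | rfl | rfl
            · exact Or.inl hs
            · exact Or.inl (by rw [hcm, hs])
            · exact Or.inr e
            · exact Or.inr (by rw [hcm, e])
            · exact hsz
            · rcases hsz with e' | e'
              · exact Or.inl (by rw [hcm, e'])
              · exact Or.inr (by rw [hcm, e'])) with h8 | h8
          · exact hsy (h8 y hy)
          · have h9 := h8 x hx
            rw [hs] at h9
            exact hne x h9.symm
        · exact Or.inl e
        · exact Or.inr e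
      obtain ⟨d, hd, hdy⟩ : ∃ d : G, (d = 1 ∨ d = c) ∧ s • y = d • z := by
        rcases hsyz with e | e
        · exact ⟨1, Or.inl rfl, by rw [one_smul]; exact e⟩
        · exact ⟨c, Or.inr rfl, e⟩
      obtain ⟨e, he, hez⟩ : ∃ e : G, (e = 1 ∨ e = c) ∧ h • z = e • x := by
        rcases hhz with e' | e'
        · exact ⟨1, Or.inl rfl, by rw [one_smul]; exact e'⟩
        · exact ⟨c, Or.inr rfl, e'⟩
      have hdd : ∀ w : X, d • (d • w) = w := by
        intro w
        rcases hd with rfl | rfl
        · rw [one_smul, one_smul]
        · exact hcc w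
      have hee : ∀ w : X, e • (e • w) = w := by
        intro w
        rcases he with rfl | rfl
        · rw [one_smul, one_smul]
        · exact hcc w
      have hdm : ∀ (g : G) (w : X), g • (d • w) = d • (g • w) := by
        intro g w
        rcases hd with rfl | rfl
        · rw [one_smul, one_smul]
        · exact hcm g w
      have hem : ∀ (g : G) (w : X), g • (e • w) = e • (g • w) := by
        intro g w
        rcases he with rfl | rfl
        · rw [one_smul, one_smul]
        · exact hcm g w
      -- the square of `s`
      have hsz : s • z = y ∨ s • z = c • y := by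
        rcases h7 _ ((hsK z).2 hz) with e' | e' | e' | e' | e' | e'
        · exact absurd e' hszx
        · exact absurd e' hszcx
        · exact Or.inl e'
        · exact Or.inr e'
        · exfalso
          rcases hsyz with e5 | e5
          · exact z3 (hinj s _ _ (by rw [e', e5]))
          · exact z4 (hinj s _ _ (by rw [e', hcm, e5, hcc]))
        · exfalso
          rcases hsyz with e5 | e5
          · exact z4 (hinj s _ _ (by rw [e', hcm, e5]))
          · exact z3 (hinj s _ _ (by rw [e', e5]))
      have hs2 : (s * s) • y = y := by
        have hss : ∀ w, (w = y ∨ w = z) → (s * s) • w = w ∨ (s * s) • w = c • w := by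
          rintro w (rfl | rfl)
          · rw [mul_smul, hdy, hdm]
            rcases hsz with e5 | e5 <;> rcases hd with rfl | rfl
            · exact Or.inl (by rw [e5, one_smul])
            · exact Or.inr (by rw [e5])
            · exact Or.inr (by rw [e5, one_smul])
            · exact Or.inl (by rw [e5, hcc])
          · rw [mul_smul]
            rcases hsz with e5 | e5 <;> rcases hsyz with e6 | e6
            · exact Or.inl (by rw [e5, e6])
            · exact Or.inr (by rw [e5, e6])
            · exact Or.inr (by rw [e5, hcm, e6])
            · exact Or.inl (by rw [e5, hcm, e6, hcc])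
        rcases hrig (s * s) (fun w hw => by
          rcases h7 w hw with rfl | rfl | rfl | rfl | rfl | rfl
          · exact Or.inl (by rw [mul_smul, hs, hs])
          · exact Or.inl (by rw [mul_smul, hcm, hs, hcm, hs])
          · exact hss _ (Or.inl rfl)
          · rcases hss _ (Or.inl rfl) with e5 | e5
            · exact Or.inl (by rw [hcm, e5])
            · exact Or.inr (by rw [hcm, e5])
          · exact hss _ (Or.inr rfl)
          · rcases hss _ (Or.inr rfl) with e5 | e5
            · exact Or.inl (by rw [hcm, e5])
            · exact Or.inr (by rw [hcm, e5])) with h8 | h8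
        · exact h8 y hy
        · exfalso
          have h9 := h8 x hx
          rw [mul_smul, hs, hs] at h9
          exact hne x h9.symm
      have hszd : s • z = d • y := by
        rw [mul_smul, hdy, hdm] at hs2
        rw [← hs2, hdd]
      refine ⟨d * (h * h * s * h⁻¹ * h⁻¹), ?_, ?_⟩
      · have h8 : h⁻¹ • (h⁻¹ • x) = e • y := by
          rw [inv_smul_eq_iff, inv_smul_eq_iff, hem, hem]
          change x = e • (h • z)
          rw [hez, hee]
        rw [mul_smul, mul_smul, mul_smul, mul_smul, mul_smul, h8, hem s, hdy, hem h, hdm h, hez,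
          hem h, hdm h, hem h, hem d, hdd]
        exact hee y
      · have h8 : h⁻¹ • (h⁻¹ • y) = e • z := by
          rw [inv_smul_eq_iff, inv_smul_eq_iff, hem, hez, hee]
        rw [mul_smul, mul_smul, mul_smul, mul_smul, mul_smul, h8, hem s, hszd, hem h, hdm h,
          hem h, hdm h, hem d, hdd]
        change e • (h • z) = x
        rw [hez, hee]

end

end Pool.Agent.H298.Colmez
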